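import Pool.Agent.W533.PP.Stm

set_option autoImplicit false

namespace Pool.Agent.W409.PP

open Finset Pool.Agent.W533.PP
open scoped Classical

/-- weighted count -/
noncomputable def N (n m : ℕ) : ℕ :=
  ∑ σ : Equiv.Perm (Fin (n+1)), if Plane σ then T m (hL σ) (kL σ) else 0

theorem N_succ (h1 : INSB) (h2 : PINS) (h3 : PSUM) (n m : ℕ) : N (n+1) m = N n (m+1) := by
  unfold N
  rw [← Function.Bijective.sum_comp (h1 (n+1)), Fintype.sum_prod_type_right]
  refine Finset.sum_congr rfl fun τ _ => ?_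
  by_cases hτ : Plane τ
  · rw [if_pos hτ, ← h3 n τ hτ m, Finset.sum_filter]
    refine Finset.sum_congr rfl fun v _ => ?_
    by_cases hv : Act τ v.val
    · rw [if_pos hv, if_pos ((h2 (n+1) v τ).2 ⟨hτ, hv⟩)]
    · rw [if_neg hv, if_neg (fun h => hv ((h2 (n+1) v τ).1 h).2)]
  · rw [if_neg hτ]
    refine Finset.sum_eq_zero fun v _ => ?_
    rw [if_neg (fun h => hτ ((h2 (n+1) v τ).1 h).1)]

theorem N_eq (h1 : INSB) (h2 : PINS) (h3 : PSUM) (n : ℕ) : ∀ m, N n m = N 0 (n + m) := by
  induction n with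
  | zero => intro m; rw [zero_add]
  | succ n ih =>
    intro m
    rw [N_succ h1 h2 h3, ih]
    congr 1
    omega

theorem act_one (τ : Equiv.Perm (Fin 1)) (s : ℕ) : Act τ s := by
  intro i j k hij
  exact absurd hij (by simp [Subsingleton.elim i j])

theorem N_zero (m : ℕ) : N 0 m = T m 1 1 := by
  unfold N
  have hsub : Subsingleton (Equiv.Perm (Fin (0+1))) :=
    (inferInstance : Subsingleton (Equiv.Perm (Fin 1)))
  rw [Fintype.sum_subsingleton _ (1 : Equiv.Perm (Fin (0+1)))]
  have hp : Plane (1 : Equiv.Perm (Fin (0+1))) := by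
    intro i j k l hij
    have h1 := i.isLt
    have h2 := j.isLt
    have h3 : i.val < j.val := hij
    omega
  rw [if_pos hp]
  have hh : hL (1 : Equiv.Perm (Fin (0+1))) = 1 := by
    unfold hL
    rw [Finset.filter_true_of_mem (fun s _ => act_one _ s)]
    simp
  have hk : kL (1 : Equiv.Perm (Fin (0+1))) = 1 := by
    unfold kL
    rw [Finset.filter_true_of_mem (fun s _ => act_one _ s)]
    simp
  rw [hh, hk]

theorem pcount (h1 : INSB) (h2 : PINS) (h3 : PSUM) : PCOUNT := by
  intro n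
  rw [← N_zero, show n = n + 0 from rfl, ← N_eq h1 h2 h3 n 0]
  unfold N
  rw [Finset.card_filter]
  rfl

end Pool.Agent.W409.PP
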